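import Pool.Agent.Y305.SK.Defs

/-! Tubes. -/

set_option autoImplicit false

open MeasureTheory Metric Set Filter Topology
open scoped ENNReal

namespace Pool.Agent.Y305.SK

/-- Euclidean space -/
abbrev V (n : ℕ) : Type := EuclideanSpace ℝ (Fin n)

/-- the closed `r`-neighbourhood of the segment `{x + t u : |t| ≤ ρ}` -/
def tube {n : ℕ} (ρ : ℝ) (x u : V n) (r : ℝ) : Set (V n) :=
  {y | ∃ t : ℝ, |t| ≤ ρ ∧ ‖y - (x + t • u)‖ ≤ r}

/-- the parameters `(d, p)` of the line `{x + t d}`, for a pair `g = (d, x)` -/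
noncomputable def par {n : ℕ} (g : V n × V n) : V n × V n :=
  (g.1, g.2 - (inner ℝ g.1 g.2 : ℝ) • g.1)

theorem Has.mono {n : ℕ} {K K' : Set (V n)} {e : V n} (h : Has K e) (hK : K ⊆ K') : Has K' e := by
  obtain ⟨x, hx⟩ := h
  exact ⟨x, fun t ht => hK (hx t ht)⟩

theorem Has.neg {n : ℕ} {K : Set (V n)} {e : V n} (h : Has K e) : Has K (-e) := by
  obtain ⟨x, hx⟩ := h
  refine ⟨x + e, fun t ht => ?_⟩
  have := hx (1 - t) ⟨by linarith [ht.2], by linarith [ht.1]⟩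
  rw [sub_smul, one_smul] at this
  rwa [smul_neg, add_assoc, ← sub_eq_add_neg]

theorem tube_compact {n : ℕ} (ρ : ℝ) (x u : V n) (r : ℝ) : IsCompact (tube ρ x u r) := by
  have h : tube ρ x u r = (fun q : ℝ × V n => x + q.1 • u + q.2) '' (Icc (-ρ) ρ ×ˢ closedBall 0 r) := by
    ext y
    simp only [tube, mem_ofPred_eq, mem_image, mem_prod, mem_closedBall, dist_zero_right, Prod.exists,
      mem_Icc, ← abs_le]
    constructor
    · rintro ⟨t, h1, h2⟩
      exact ⟨t, y - (x + t • u), ⟨h1, h2⟩, by abel⟩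
    · rintro ⟨t, w, ⟨h1, h2⟩, rfl⟩
      refine ⟨t, h1, ?_⟩
      rwa [add_sub_cancel_left]
  rw [h]
  exact (isCompact_Icc.prod (isCompact_closedBall _ _)).image (by fun_prop)

/-- a unit segment in a thin tube has almost the direction of the tube -/
theorem tube_dir {n : ℕ} {ρ r : ℝ} {x u y e : V n} (hu : ‖u‖ = 1) (he : ‖e‖ = 1)
    (h0 : y ∈ tube ρ x u r) (h1 : y + e ∈ tube ρ x u r) : ‖e - u‖ ≤ 4 * r ∨ ‖e + u‖ ≤ 4 * r := by
  obtain ⟨s, -, hs⟩ := h0
  obtain ⟨t, -, ht⟩ := h1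
  have hw : ‖e - (t - s) • u‖ ≤ 2 * r := by
    have e1 : e - (t - s) • u = (y + e - (x + t • u)) - (y - (x + s • u)) := by
      rw [sub_smul]; abel
    rw [e1]
    calc _ ≤ ‖y + e - (x + t • u)‖ + ‖y - (x + s • u)‖ := norm_sub_le _ _
      _ ≤ 2 * r := by linarith
  have hn : abs (1 - abs (t - s)) ≤ 2 * r := by
    have h2 : ‖(t - s) • u‖ = abs (t - s) := by rw [norm_smul, hu, mul_one, Real.norm_eq_abs]
    have h3 := abs_norm_sub_norm_le e ((t - s) • u)
    rw [he, h2] at h3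
    exact h3.trans hw
  rcases le_total 0 (t - s) with hp | hp
  · left
    rw [abs_of_nonneg hp] at hn
    have e2 : e - u = (e - (t - s) • u) + ((t - s) - 1) • u := by
      rw [sub_smul (t - s), one_smul]; abel
    rw [e2]
    refine (norm_add_le _ _).trans ?_
    rw [norm_smul, hu, mul_one, Real.norm_eq_abs, abs_sub_comm]
    linarith
  · right
    rw [abs_of_nonpos hp] at hn
    have e2 : e + u = (e - (t - s) • u) + ((t - s) + 1) • u := by
      rw [add_smul (t - s), one_smul]; abel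
    rw [e2]
    refine (norm_add_le _ _).trans ?_
    rw [norm_smul, hu, mul_one, Real.norm_eq_abs]
    have : abs (t - s + 1) = abs (1 - -(t - s)) := by congr 1; ring
    rw [this]
    linarith

/-- inclusions of tubes -/
theorem tube_sub {n : ℕ} {ρ r r' : ℝ} {x u x' u' : V n}
    (h : ‖x' - x‖ + ρ * ‖u' - u‖ + r' ≤ r) : tube ρ x' u' r' ⊆ tube ρ x u r := by
  rintro y ⟨t, ht, hy⟩
  refine ⟨t, ht, ?_⟩
  have e1 : y - (x + t • u) = (y - (x' + t • u')) + (x' - x) + t • (u' - u) := by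
    rw [smul_sub]; abel
  rw [e1]
  have h2 : ‖t • (u' - u)‖ ≤ ρ * ‖u' - u‖ := by
    rw [norm_smul, Real.norm_eq_abs]
    exact mul_le_mul_of_nonneg_right ht (norm_nonneg _)
  calc _ ≤ ‖y - (x' + t • u')‖ + ‖x' - x‖ + ‖t • (u' - u)‖ := norm_add₃_le
    _ ≤ r := by linarith

/-- a unit segment contained in a finite union of pairwise disjoint closed sets is contained in one
of them -/
theorem seg_in_one {n : ℕ} {ι : Type*} (s : Finset ι) (F : ι → Set (V n))
    (hF : ∀ i ∈ s, IsClosed (F i)) (hd : ∀ i ∈ s, ∀ j ∈ s, i ≠ j → Disjoint (F i) (F j))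
    {x e : V n} (h : ∀ t ∈ Icc (0 : ℝ) 1, ∃ i ∈ s, x + t • e ∈ F i) :
    ∃ i ∈ s, ∀ t ∈ Icc (0 : ℝ) 1, x + t • e ∈ F i := by
  classical
  obtain ⟨i, hi, hxi⟩ := h 0 ⟨le_rfl, zero_le_one⟩
  refine ⟨i, hi, ?_⟩
  set S : Set (V n) := (fun t : ℝ => x + t • e) '' Icc (0 : ℝ) 1 with hS
  have hpre : IsPreconnected S := (isPreconnected_Icc).image _ (by fun_prop)
  set G : Set (V n) := ⋃ j ∈ s.erase i, F j with hG
  have hGc : IsClosed G := by
    refine isClosed_biUnion_finset fun j hj => hF j (Finset.mem_of_mem_erase hj)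
  have hSG : S ⊆ F i ∪ G := by
    rintro _ ⟨t, ht, rfl⟩
    obtain ⟨j, hj, hxj⟩ := h t ht
    by_cases hji : j = i
    · left; rw [← hji]; exact hxj
    · right
      exact mem_biUnion (Finset.mem_coe.2 (Finset.mem_erase.2 ⟨hji, hj⟩)) hxj
  have h1 : (S ∩ F i).Nonempty := ⟨x + (0 : ℝ) • e, ⟨0, ⟨le_rfl, zero_le_one⟩, rfl⟩, hxi⟩
  have h2 : ¬ (S ∩ G).Nonempty := by
    intro h2
    obtain ⟨z, -, hz1, hz2⟩ := isPreconnected_closed_iff.1 hpre _ _ (hF i hi) hGc hSG h1 h2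
    rw [hG, mem_iUnion₂] at hz2
    obtain ⟨j, hj, hzj⟩ := hz2
    exact (Set.disjoint_left.1 (hd i hi j (Finset.mem_of_mem_erase hj)
      (Finset.ne_of_mem_erase hj).symm)) hz1 hzj
  intro t ht
  rcases hSG ⟨t, ht, rfl⟩ with h3 | h3
  · exact h3
  · exact absurd ⟨_, ⟨t, ht, rfl⟩, h3⟩ h2

end Pool.Agent.Y305.SK
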