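import Mathlib

/-!
# Kakeya sets and stickiness: definitions for MP_a467b6_an

The lines of `ℝⁿ` are coded by pairs `(e, p)`: `e` is a unit vector, `p` is orthogonal to `e` and
the line is `{p + t e}`.
-/

set_option autoImplicit false

open MeasureTheory Metric Set
open scoped ENNReal

namespace Pool.Agent.Y305.SK

/-- `K` contains a segment of length `1` of direction `e` -/
def Has {n : ℕ} (K : Set (EuclideanSpace ℝ (Fin n))) (e : EuclideanSpace ℝ (Fin n)) : Prop :=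
  ∃ x : EuclideanSpace ℝ (Fin n), ∀ t ∈ Icc (0 : ℝ) 1, x + t • e ∈ K

/-- Kakeya sets: compact sets which contain a segment of length `1` in every direction -/
def Kakeya {n : ℕ} (K : Set (EuclideanSpace ℝ (Fin n))) : Prop :=
  IsCompact K ∧ ∀ e : EuclideanSpace ℝ (Fin n), ‖e‖ = 1 → Has K e

/-- `d_n`: the infimum of the Hausdorff dimensions of the Kakeya sets in `ℝⁿ` -/
noncomputable def kdim (n : ℕ) : ℝ≥0∞ :=
  ⨅ (K : Set (EuclideanSpace ℝ (Fin n))) (_ : Kakeya K), dimH K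

/-- `L` is a set of lines which contains at least one line in every direction, and every line of `L`
meets `K` in a set containing a segment of length `1` -/
def LinesOf {n : ℕ} (K : Set (EuclideanSpace ℝ (Fin n)))
    (L : Set (EuclideanSpace ℝ (Fin n) × EuclideanSpace ℝ (Fin n))) : Prop :=
  (∀ q ∈ L, ‖q.1‖ = 1 ∧ inner ℝ q.1 q.2 = (0 : ℝ) ∧
    ∃ a : ℝ, ∀ t ∈ Icc a (a + 1), q.2 + t • q.1 ∈ K) ∧
  ∀ e : EuclideanSpace ℝ (Fin n), ‖e‖ = 1 → ∃ p : EuclideanSpace ℝ (Fin n), (e, p) ∈ L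

/-- the upper box dimension of `P` is at most `s` -/
def BoxLE {n : ℕ} (P : Set (EuclideanSpace ℝ (Fin n) × EuclideanSpace ℝ (Fin n))) (s : ℝ) : Prop :=
  ∀ t : ℝ, s < t → ∃ δ₀ : ℝ, 0 < δ₀ ∧ ∀ δ : ℝ, 0 < δ → δ < δ₀ →
    ∃ F : Finset (EuclideanSpace ℝ (Fin n) × EuclideanSpace ℝ (Fin n)),
      (F.card : ℝ) ≤ δ ^ (-t) ∧ P ⊆ ⋃ x ∈ F, ball x δ

/-- the packing dimension of `L` is at most `d`: for every `s > d` the set `L` is covered by
countably many sets of upper box dimension at most `s` -/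
def PackLE {n : ℕ} (L : Set (EuclideanSpace ℝ (Fin n) × EuclideanSpace ℝ (Fin n))) (d : ℝ) : Prop :=
  ∀ s : ℝ, d < s → ∃ P : ℕ → Set (EuclideanSpace ℝ (Fin n) × EuclideanSpace ℝ (Fin n)),
    L ⊆ (⋃ i, P i) ∧ ∀ i, BoxLE (P i) s

/-- `K` is `ε`-close to being sticky -/
def CloseToSticky {n : ℕ} (ε : ℝ) (K : Set (EuclideanSpace ℝ (Fin n))) : Prop :=
  ∃ L : Set (EuclideanSpace ℝ (Fin n) × EuclideanSpace ℝ (Fin n)),
    LinesOf K L ∧ PackLE L ((n : ℝ) - 1 + ε)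

/-- the assertion of the problem in `ℝⁿ`: if `d_n < n`, then Kakeya sets of dimension close to `d_n`
are close to being sticky -/
def Assertion (n : ℕ) : Prop :=
  kdim n < (n : ℝ≥0∞) → ∀ ε : ℝ, 0 < ε → ∃ η : ℝ, 0 < η ∧
    ∀ K : Set (EuclideanSpace ℝ (Fin n)), Kakeya K → dimH K ≤ kdim n + ENNReal.ofReal η →
      CloseToSticky ε K

end Pool.Agent.Y305.SK
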