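import Pool.Agent.Y305.SK.Bas

/-! Statements of the jobs of project SK (stickiness). -/

set_option autoImplicit false

open MeasureTheory Metric Set Filter Topology
open scoped ENNReal

namespace Pool.Agent.Y305.SK

/-- SK-PIECE: a Kakeya set contracted towards a line -/
def S_PIECE : Prop :=
  ∀ (n : ℕ) (K : Set (V n)) (M : ℝ), Kakeya K → K ⊆ closedBall 0 M → 1 ≤ M →
    ∀ (u : V n) (δ : ℝ), ‖u‖ = 1 → 0 < δ → δ ≤ 1 →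
    ∃ W : Set (V n), IsCompact W ∧ dimH W ≤ dimH K ∧ W ⊆ tube (2 * M) 0 u (2 * M * δ) ∧
      ∀ e : V n, ‖e‖ = 1 → ‖e - u‖ ≤ δ → Has W e

/-- SK-SPREAD: many contracted Kakeya sets placed radially, so that they are disjoint -/
def S_SPREAD : Prop :=
  ∀ (n : ℕ) (K : Set (V n)) (M : ℝ), Kakeya K → K ⊆ closedBall 0 M → 1 ≤ M →
    ∀ (A : Set (V n)) (e₀ x₀ : V n) (R δ : ℝ), ‖e₀‖ = 1 → 0 ≤ R → 0 < δ → δ ≤ 1 →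
    (∀ e ∈ A, ‖e‖ = 1 ∧ ‖e - e₀‖ ≤ R) →
    ∃ W : Set (V n), IsCompact W ∧ dimH W ≤ dimH K ∧
      W ⊆ tube (2 * M) x₀ e₀ (22 * M * R + 2 * M * δ) ∧ (∀ e ∈ A, Has W e) ∧
      ∀ x e : V n, ‖e‖ = 1 → (∀ t ∈ Icc (0 : ℝ) 1, x + t • e ∈ W) →
        ∃ u ∈ A, ‖e - u‖ ≤ 8 * M * δ ∨ ‖e + u‖ ≤ 8 * M * δ

/-- SK-GEN: in dimension at least three finitely many segments can be made disjoint -/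
def S_GEN : Prop :=
  ∀ (n : ℕ), 3 ≤ n → ∀ (ρ : ℝ) (m : ℕ) (g : Fin m → V n × V n), (∀ i, ‖(g i).1‖ = 1) →
    ∀ ε : ℝ, 0 < ε → ∃ h : Fin m → V n × V n,
      (∀ i, ‖(h i).1‖ = 1 ∧ ‖(h i).1 - (g i).1‖ < ε ∧ ‖(h i).2 - (g i).2‖ < ε) ∧
      ∀ i j, i ≠ j → (h i).1 ≠ (h j).1 ∧ (h i).1 ≠ -(h j).1 ∧
        Disjoint (tube ρ (h i).2 (h i).1 0) (tube ρ (h j).2 (h j).1 0)

/-- SK-GRID: many separated lines -/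
def S_GRID : Prop :=
  ∀ (n : ℕ), 2 ≤ n → ∀ (e₀ x₀ : V n) (R ω s τ : ℝ), ‖e₀‖ = 1 → 0 < R → R ≤ 1 / 2 → 0 < ω →
    s < 2 * ((n : ℝ) - 1) → 0 < τ → ∃ (r : ℝ) (m : ℕ) (g : Fin m → V n × V n), 0 < r ∧ r < τ ∧
      (r / 4) ^ (-s) < m ∧ (∀ i, ‖(g i).1‖ = 1 ∧ ‖(g i).1 - e₀‖ < R ∧ ‖(g i).2 - x₀‖ < ω) ∧
      ∀ i j, i ≠ j → 2 * r ≤ dist (par (g i)) (par (g j))

/-- SK-CHILD: many separated disjoint segments -/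
def S_CHILD : Prop :=
  ∀ (n : ℕ), 3 ≤ n → ∀ (ρ : ℝ) (e₀ x₀ : V n) (R ω s τ : ℝ), ‖e₀‖ = 1 → 0 < R → R ≤ 1 / 2 →
    0 < ω → s < 2 * ((n : ℝ) - 1) → 0 < τ → ∃ (r : ℝ) (G : Finset (V n × V n)), 0 < r ∧ r < τ ∧
      (r / 4) ^ (-s) < G.card ∧ (∀ g ∈ G, ‖g.1‖ = 1 ∧ ‖g.1 - e₀‖ < R ∧ ‖g.2 - x₀‖ < ω) ∧
      ∀ g ∈ G, ∀ g' ∈ G, g ≠ g' → r ≤ dist (par g) (par g') ∧ g.1 ≠ g'.1 ∧ g.1 ≠ -g'.1 ∧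
        Disjoint (tube ρ g.2 g.1 0) (tube ρ g'.2 g'.1 0)

/-- SK-STAGE: the construction inside one tube -/
def S_STAGE : Prop :=
  ∀ (n : ℕ), 3 ≤ n → ∀ (K : Set (V n)) (M : ℝ), Kakeya K → K ⊆ closedBall 0 M → 1 ≤ M →
    ∀ (e₀ x₀ : V n) (R ω s τ : ℝ), ‖e₀‖ = 1 → 0 < R → R ≤ 2 → 100 * M * R ≤ ω →
    s < 2 * ((n : ℝ) - 1) → 0 < τ → ∃ (r θ : ℝ) (G : Finset (V n × V n)), 0 < r ∧ r < τ ∧ 0 < θ ∧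
      (r / 4) ^ (-s) < G.card ∧ (∀ g ∈ G, ‖g.1‖ = 1 ∧ ‖g.1 - e₀‖ ≤ R / 4) ∧
      (∀ g ∈ G, ∀ g' ∈ G, g ≠ g' → r ≤ dist (par g) (par g')) ∧
      ∀ ω' R' : ℝ, 0 < ω' → ω' ≤ θ → 0 < R' → R' ≤ θ →
        (∀ g ∈ G, ∀ g' ∈ G, g ≠ g' →
          Disjoint (tube (2 * M) g.2 g.1 (3 * ω')) (tube (2 * M) g'.2 g'.1 (3 * ω')) ∧
          50 * ω' ≤ ‖g.1 - g'.1‖ ∧ 50 * ω' ≤ ‖g.1 + g'.1‖) ∧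
        (∀ g ∈ G, Disjoint (tube (2 * M) x₀ e₀ (ω / 2)) (tube (2 * M) g.2 g.1 (3 * ω')) ∧
          tube (2 * M) g.2 g.1 (3 * ω') ⊆ tube (2 * M) x₀ e₀ (3 * ω)) ∧
        ∃ W : Set (V n), IsCompact W ∧ dimH W ≤ dimH K ∧ W ⊆ tube (2 * M) x₀ e₀ (ω / 2) ∧
          (∀ e : V n, ‖e‖ = 1 → ‖e - e₀‖ ≤ R →
            Has W e ∨ ∃ g ∈ G, ‖e - g.1‖ ≤ R' ∨ ‖e + g.1‖ ≤ R') ∧
          ∀ x e : V n, ‖e‖ = 1 → (∀ t ∈ Icc (0 : ℝ) 1, x + t • e ∈ W) →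
            ∀ g ∈ G, R' / 2 < ‖e - g.1‖ ∧ R' / 2 < ‖e + g.1‖

/-- the tube of a node `g = (direction, centre)` -/
def tb {n : ℕ} (M ω : ℝ) (g : V n × V n) : Set (V n) := tube (2 * M) g.2 g.1 (3 * ω)

/-- a level of the construction: finitely many nodes -/
structure Good {n : ℕ} (M : ℝ) (Γ : Finset (V n × V n)) (ω R : ℝ) : Prop where
  unit : ∀ g ∈ Γ, ‖g.1‖ = 1
  ne : Γ.Nonempty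
  Rpos : 0 < R
  R2 : R ≤ 2
  hR : 100 * M * R ≤ ω
  disj : ∀ g ∈ Γ, ∀ g' ∈ Γ, g ≠ g' → Disjoint (tb M ω g) (tb M ω g')
  sep : ∀ g ∈ Γ, ∀ g' ∈ Γ, g ≠ g' → 50 * ω ≤ ‖g.1 - g'.1‖ ∧ 50 * ω ≤ ‖g.1 + g'.1‖

/-- one step of the construction: from the level `Γ, ω, R` to the level `Γ', ω', R'` -/
structure Step {n : ℕ} (K : Set (V n)) (M : ℝ) (k : ℕ) (Γ : Finset (V n × V n)) (ω R : ℝ)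
    (Γ' : Finset (V n × V n)) (ω' R' : ℝ) (W : Set (V n)) : Prop where
  good : Good M Γ' ω' R'
  Wc : IsCompact W
  Wd : dimH W ≤ dimH K
  Wsub : ∀ y ∈ W, ∃ g ∈ Γ, y ∈ tb M ω g
  sub : ∀ g' ∈ Γ', ∃ g ∈ Γ, tb M ω' g' ⊆ tb M ω g ∧ ‖g'.1 - g.1‖ ≤ R / 4
  WZ : ∀ g' ∈ Γ', Disjoint W (tb M ω' g')
  cov : ∀ e : V n, ‖e‖ = 1 → (∃ g ∈ Γ, ‖e - g.1‖ ≤ R ∨ ‖e + g.1‖ ≤ R) →
    Has W e ∨ ∃ g' ∈ Γ', ‖e - g'.1‖ ≤ R' ∨ ‖e + g'.1‖ ≤ R'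
  dir : ∀ x e : V n, ‖e‖ = 1 → (∀ t ∈ Icc (0 : ℝ) 1, x + t • e ∈ W) →
    ∀ g' ∈ Γ', R' / 2 < ‖e - g'.1‖ ∧ R' / 2 < ‖e + g'.1‖
  wild : ∀ g ∈ Γ, ∃ (r : ℝ) (C : Finset (V n × V n)), C ⊆ Γ' ∧ 0 < r ∧ r * ((k : ℝ) + 1) < 1 ∧
    (r / 4) ^ (-(2 * ((n : ℝ) - 1) - 1 / ((k : ℝ) + 1))) < C.card ∧ 1000 * ω' ≤ r ∧
    (∀ g' ∈ C, ‖g'.1 - g.1‖ ≤ R / 4) ∧
    ∀ g' ∈ C, ∀ g'' ∈ C, g' ≠ g'' → r ≤ dist (par g') (par g'')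
  small : R' ≤ R / 2 ∧ ω' * ((k : ℝ) + 1) ≤ 1 ∧
    (Γ'.card : ℝ) * ω' ^ (1 / ((k : ℝ) + 1)) ≤ 1 / ((k : ℝ) + 1)

/-- SK-STEP: existence of the next level -/
def S_STEP : Prop :=
  ∀ (n : ℕ), 3 ≤ n → ∀ (K : Set (V n)) (M : ℝ), Kakeya K → K ⊆ closedBall 0 M → 1 ≤ M →
    ∀ (k : ℕ) (Γ : Finset (V n × V n)) (ω R : ℝ), Good M Γ ω R →
    ∃ (Γ' : Finset (V n × V n)) (ω' R' : ℝ) (W : Set (V n)), Step K M k Γ ω R Γ' ω' R' W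

/-- SK-DIM: the limit of the thin tubes has dimension at most one -/
def S_DIM : Prop :=
  ∀ (n : ℕ) (ρ : ℝ) (Γ : ℕ → Finset (V n × V n)) (ω : ℕ → ℝ),
    (∀ k, ∀ g ∈ Γ k, ‖g.1‖ = 1) → (∀ k, 0 < ω k) →
    (∀ k : ℕ, ω (k + 1) * ((k : ℝ) + 1) ≤ 1 ∧
      ((Γ (k + 1)).card : ℝ) * ω (k + 1) ^ (1 / ((k : ℝ) + 1)) ≤ 1 / ((k : ℝ) + 1)) →
    dimH {y : V n | ∀ k, ∃ g ∈ Γ k, y ∈ tube ρ g.2 g.1 (3 * ω k)} ≤ 1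

/-- an infinite sequence of levels, beginning with one node of direction radius `2` -/
structure Tree {n : ℕ} (K : Set (V n)) (M : ℝ) (Γ : ℕ → Finset (V n × V n)) (ω R : ℕ → ℝ)
    (W : ℕ → Set (V n)) : Prop where
  root : ∃ e₀ : V n, ‖e₀‖ = 1 ∧ Γ 0 = {(e₀, 0)} ∧ R 0 = 2 ∧ ω 0 = 200 * M
  good : ∀ k, Good M (Γ k) (ω k) (R k)
  step : ∀ k, Step K M k (Γ k) (ω k) (R k) (Γ (k + 1)) (ω (k + 1)) (R (k + 1)) (W k)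

/-- the limit set -/
def lim {n : ℕ} (M : ℝ) (Γ : ℕ → Finset (V n × V n)) (ω : ℕ → ℝ) (W : ℕ → Set (V n)) :
    Set (V n) :=
  {y | ∀ k, (∃ j < k, y ∈ W j) ∨ ∃ g ∈ Γ k, y ∈ tb M (ω k) g}

/-- the wild directions -/
def Edir {n : ℕ} (Γ : ℕ → Finset (V n × V n)) (R : ℕ → ℝ) : Set (V n) :=
  {e | ‖e‖ = 1 ∧ ∀ k, ∃ g ∈ Γ k, ‖e - g.1‖ ≤ R k / 2}

/-- unit segments of a wild direction lie in the tubes of the nodes of this direction -/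
def Uniq {n : ℕ} (M : ℝ) (Γ : ℕ → Finset (V n × V n)) (ω R : ℕ → ℝ) (W : ℕ → Set (V n)) : Prop :=
  ∀ e ∈ Edir Γ R, ∀ x : V n, (∀ t ∈ Icc (0 : ℝ) 1, x + t • e ∈ lim M Γ ω W) →
    ∀ k, ∀ g ∈ Γ k, ‖e - g.1‖ ≤ R k / 2 → ∀ t ∈ Icc (0 : ℝ) 1, x + t • e ∈ tb M (ω k) g

/-- SK-LIM: properties of the limit set -/
def S_LIM : Prop :=
  ∀ (n : ℕ), 1 ≤ n → ∀ (K : Set (V n)) (M : ℝ) (Γ : ℕ → Finset (V n × V n)) (ω R : ℕ → ℝ)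
    (W : ℕ → Set (V n)), Kakeya K → 1 ≤ M → Tree K M Γ ω R W →
    Kakeya (lim M Γ ω W) ∧ dimH (lim M Γ ω W) ≤ dimH K ∧ Uniq M Γ ω R W

/-- SK-PACK: the packing dimension of the lines -/
def S_PACK : Prop :=
  ∀ (n : ℕ), 3 ≤ n → ∀ (K : Set (V n)) (M : ℝ) (Γ : ℕ → Finset (V n × V n)) (ω R : ℕ → ℝ)
    (W : ℕ → Set (V n)), 1 ≤ M → Tree K M Γ ω R W → Uniq M Γ ω R W →
    ∀ L : Set (V n × V n), LinesOf (lim M Γ ω W) L → ∀ d : ℝ, PackLE L d →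
      2 * ((n : ℝ) - 1) ≤ d

end Pool.Agent.Y305.SK
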